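import Mathlib

/-!
# Rational averages of solutions of polynomial equations with rational coefficients
-/

open MvPolynomial

namespace Pool.Agent.TH6.NC

/-- Solutions in a number field. -/
theorem exists_number_field {K : Type} [Field K] [CharZero K] {m : ℕ}
    (S : Set (MvPolynomial (Fin m) ℚ)) (z : Fin m → K) (hz : ∀ f ∈ S, aeval z f = 0) :
    ∃ (L : Type) (_ : Field L) (_ : Algebra ℚ L) (_ : Module.Finite ℚ L)
      (q : MvPolynomial (Fin m) ℚ →ₐ[ℚ] L), ∀ f ∈ S, q f = 0 := by
  set I : Ideal (MvPolynomial (Fin m) ℚ) := Ideal.span S with hI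
  have hI1 : I ≤ RingHom.ker (aeval z : MvPolynomial (Fin m) ℚ →ₐ[ℚ] K).toRingHom := by
    rw [hI, Ideal.span_le]
    intro f hf
    exact hz f hf
  have hne : I ≠ ⊤ := by
    intro h
    rw [h, top_le_iff, Ideal.eq_top_iff_one, RingHom.mem_ker] at hI1
    simp at hI1
  obtain ⟨M, hM, hIM⟩ := Ideal.exists_le_maximal I hne
  let F : Field (MvPolynomial (Fin m) ℚ ⧸ M) := Ideal.Quotient.field M
  have h1 : Algebra.FiniteType ℚ (MvPolynomial (Fin m) ℚ ⧸ M) := inferInstance
  have h2 : Module.Finite ℚ (MvPolynomial (Fin m) ℚ ⧸ M) :=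
    finite_of_finite_type_of_isJacobsonRing ℚ (MvPolynomial (Fin m) ℚ ⧸ M)
  refine ⟨MvPolynomial (Fin m) ℚ ⧸ M, F, Ideal.Quotient.algebra ℚ, h2, Ideal.Quotient.mkₐ ℚ M, ?_⟩
  intro f hf
  exact Ideal.Quotient.eq_zero_iff_mem.2 (hIM (Ideal.subset_span hf))

/-- A system of polynomial equations over `ℚ` which has a solution in an algebraically closed field
`K` of characteristic `0` has finitely many solutions in `K` whose average is rational. -/
theorem exists_rational_average {K : Type} [Field K] [CharZero K] [IsAlgClosed K] {m : ℕ}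
    (S : Set (MvPolynomial (Fin m) ℚ)) (z : Fin m → K) (hz : ∀ f ∈ S, aeval z f = 0) :
    ∃ (J : Type) (_ : Fintype J) (_ : Nonempty J) (x : J → Fin m → K) (y : Fin m → ℚ),
      (∀ j, ∀ f ∈ S, aeval (x j) f = 0) ∧
      ∀ i, (Fintype.card J : K) * (y i : K) = ∑ j, x j i := by
  classical
  obtain ⟨L, hLf, hLa, hLfin, q, hq⟩ := exists_number_field S z hz
  refine ⟨L →ₐ[ℚ] K, inferInstance, ⟨IsAlgClosed.lift⟩, fun σ i => σ (q (X i)),
    fun i => Algebra.trace ℚ L (q (X i)) / (Module.finrank ℚ L : ℚ), ?_, ?_⟩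
  · intro σ f hf
    have h1 : aeval (fun i => σ (q (X i))) f = σ (q f) := by
      have : (aeval (fun i => σ (q (X i))) : MvPolynomial (Fin m) ℚ →ₐ[ℚ] K) = σ.comp q := by
        apply MvPolynomial.algHom_ext
        intro i
        simp
      rw [this]
      rfl
    rw [h1, hq f hf, map_zero]
  · intro i
    rw [AlgHom.card ℚ L K]
    have h1 := trace_eq_sum_embeddings (K := ℚ) (L := L) K (x := q (X i))
    have h0 : (Module.finrank ℚ L : K) ≠ 0 := by
      have : 0 < Module.finrank ℚ L := Module.finrank_pos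
      exact_mod_cast this.ne'
    rw [← h1]
    push_cast
    rw [mul_div_cancel₀ _ h0]
    rfl

end Pool.Agent.TH6.NC
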