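import Mathlib

/-!
# Algebraic endomorphisms of the super realisation of a rigid tensor category: definitions

A `SuperTheory K` records what the realisation `H : 𝒯 → sVec_K` of a `ℚ`-linear rigid symmetric
monoidal category `𝒯` (for instance noncommutative Chow motives and periodic cyclic homology, or
Chow motives and a Weil cohomology) gives on endomorphisms: for every object `A` the finite
dimensional super vector space `H(A)`, with a homogeneous basis indexed by `ι A`, and the
`ℚ`-algebra `Alg A` of the matrices of the endomorphisms `H(f)`, `f ∈ End(A)`.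
-/

open Matrix Finset

namespace Pool.Agent.TH6.NC

/-- The Koszul sign of the permutation `σ` of the factors of a word `w` of homogeneous vectors:
`-1` to the number of the pairs of odd letters whose order is reversed. -/
def koszul {I : Type} (sg : I → ℤˣ) {n : ℕ} (σ : Equiv.Perm (Fin n)) (w : Fin n → I) : ℤˣ :=
  ∏ q ∈ (univ : Finset (Fin n × Fin n)) with q.1 < q.2 ∧ σ q.2 < σ q.1,
    if sg (w q.1) = -1 ∧ sg (w q.2) = -1 then -1 else 1

/-- The matrix of the action of the permutation `σ` on the `n`-th tensor power of a super vector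
space with the homogeneous basis `I`: the word `w` is sent to `± w ∘ σ⁻¹`. -/
def permMat (K : Type) [Field K] {I : Type} [DecidableEq I] (sg : I → ℤˣ) {n : ℕ}
    (σ : Equiv.Perm (Fin n)) : Matrix (Fin n → I) (Fin n → I) K :=
  Matrix.of fun u w => if u = w ∘ σ.symm then ((koszul sg σ w : ℤ) : K) else 0

/-- The matrix of the action of the element `∑ c σ • σ` of the group algebra of `S_n`. -/
def groupMat (K : Type) [Field K] {I : Type} [DecidableEq I] (sg : I → ℤˣ) {n : ℕ}
    (c : Equiv.Perm (Fin n) → ℚ) : Matrix (Fin n → I) (Fin n → I) K :=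
  ∑ σ, (c σ : K) • permMat K sg σ

/-- The tensor product of two matrices. -/
def kron {K : Type} [Field K] {I J : Type} (f : Matrix I I K) (g : Matrix J J K) :
    Matrix (I × J) (I × J) K :=
  Matrix.of fun u w => f u.1 w.1 * g u.2 w.2

/-- The tensor power of a matrix. -/
def kronPow {K : Type} [Field K] {I : Type} (n : ℕ) (f : Matrix I I K) :
    Matrix (Fin n → I) (Fin n → I) K :=
  Matrix.of fun u w => ∏ k, f (u k) (w k)

/-- Objects with a super realisation over the field `K` and the algebras of the algebraic
endomorphisms of the realisations. -/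
structure SuperTheory (K : Type) [Field K] [CharZero K] where
  /-- objects -/
  Obj : Type
  /-- the index set of a homogeneous basis of the realisation -/
  ι : Obj → Type
  [fintype : ∀ A, Fintype (ι A)]
  [decEq : ∀ A, DecidableEq (ι A)]
  /-- the parity of a basis vector: `1` (even) or `-1` (odd) -/
  sg : ∀ A, ι A → ℤˣ
  /-- the matrices of the realisations of the endomorphisms of `A` -/
  Alg : ∀ A, Subalgebra ℚ (Matrix (ι A) (ι A) K)
  /-- realisations of endomorphisms respect the grading -/
  even : ∀ A, ∀ f ∈ Alg A, ∀ i j, sg A i ≠ sg A j → f i j = 0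
  /-- the tensor product of two objects -/
  prod : Obj → Obj → Obj
  /-- the product basis -/
  e : ∀ A B, ι (prod A B) ≃ ι A × ι B
  sg_e : ∀ A B x, sg (prod A B) x = sg A (e A B x).1 * sg B (e A B x).2
  /-- tensor products of endomorphisms -/
  kron_mem : ∀ A B, ∀ f ∈ Alg A, ∀ g ∈ Alg B,
    (kron f g).submatrix (e A B) (e A B) ∈ Alg (prod A B)
  /-- partial super trace over the second factor -/
  traceRight_mem : ∀ A B, ∀ z ∈ Alg (prod A B), (Matrix.of fun i j => ∑ b,
    ((sg B b : ℤ) : K) * z ((e A B).symm (i, b)) ((e A B).symm (j, b))) ∈ Alg A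
  /-- partial super trace over the first factor -/
  traceLeft_mem : ∀ A B, ∀ z ∈ Alg (prod A B), (Matrix.of fun i j => ∑ a,
    ((sg A a : ℤ) : K) * z ((e A B).symm (a, i)) ((e A B).symm (a, j))) ∈ Alg B
  /-- the tensor power of an object -/
  pow : Obj → ℕ → Obj
  /-- the product basis -/
  p : ∀ A n, ι (pow A n) ≃ (Fin n → ι A)
  sg_p : ∀ A n x, sg (pow A n) x = ∏ k, sg A (p A n x k)
  /-- the symmetric group acts by algebraic endomorphisms -/
  perm_mem : ∀ A n, ∀ σ : Equiv.Perm (Fin n),
    (permMat K (sg A) σ).submatrix (p A n) (p A n) ∈ Alg (pow A n)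
  /-- tensor powers of endomorphisms -/
  kronPow_mem : ∀ A n, ∀ f ∈ Alg A, (kronPow n f).submatrix (p A n) (p A n) ∈ Alg (pow A n)
  /-- partial super trace over all factors but the first one -/
  traceTail_mem : ∀ A n, ∀ z ∈ Alg (pow A (n + 1)), (Matrix.of fun i j => ∑ w : Fin n → ι A,
    ((∏ k, sg A (w k) : ℤˣ) : ℤ) *
      z ((p A (n + 1)).symm (Fin.cons i w)) ((p A (n + 1)).symm (Fin.cons j w))) ∈ Alg A

namespace SuperTheory

variable {K : Type} [Field K] [CharZero K] (T : SuperTheory K)

attribute [instance] SuperTheory.fintype SuperTheory.decEq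

/-- The parity operator of the realisation of `A`: `1` on the even part, `-1` on the odd part. -/
def parity (A : T.Obj) : Matrix (T.ι A) (T.ι A) K := Matrix.diagonal fun i => ((T.sg A i : ℤ) : K)

/-- The sign conjecture (conjecture of type `C^+`) for `A`: the parity operator, and so the
projectors `(1 ± parity) / 2` onto the even and the odd part of the realisation, are realisations
of endomorphisms of `A`. -/
def Sign (A : T.Obj) : Prop := T.parity A ∈ T.Alg A

/-- For an idempotent `f ∈ Alg A`: the sign conjecture for the direct summand of `A` cut out by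
`f`. -/
def SignSummand (A : T.Obj) (f : Matrix (T.ι A) (T.ι A) K) : Prop := f * T.parity A ∈ T.Alg A

/-- The element `∑ c σ • σ` of `ℚ[S_n]` acting on the realisation of `A ^ n ⊗ B`. -/
def schur (A B : T.Obj) {n : ℕ} (c : Equiv.Perm (Fin n) → ℚ) :
    Matrix (T.ι (T.prod (T.pow A n) B)) (T.ι (T.prod (T.pow A n) B)) K :=
  (kron ((groupMat K (T.sg A) c).submatrix (T.p A n) (T.p A n)) 1).submatrix
    (T.e (T.pow A n) B) (T.e (T.pow A n) B)

end SuperTheory

end Pool.Agent.TH6.NC
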