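import Pool.Agent.H578R3.SgnLin
import Pool.Agent.TH6.NC.Avg

/-!
# The sign conjecture, its numerical form, and the field of coefficients
-/

open Finset Polynomial

set_option linter.unusedSectionVars false

namespace Pool.Agent.TH6.NC

open Pool.Agent.H914 Pool.Agent.H447 Pool.Agent.H578R3.Sgn

variable {K : Type} [Field K] {V : Type} [AddCommGroup V] [Module K V]

/-- The super trace of the endomorphism `x` of the super vector space `V` for which `p` is the
projector onto the even part and `1 - p` the projector onto the odd part. -/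
noncomputable def superTrace (p x : Module.End K V) : K :=
  LinearMap.trace K V ((p - (1 - p)) * x)

/-- `T` is an idempotent modulo numerical equivalence: the super traces of all products of
`T * T - T` with elements of `R` vanish. -/
def NumIdempotent (p : Module.End K V) (R : Set (Module.End K V)) (T : Module.End K V) : Prop :=
  ∀ s ∈ R, superTrace p ((T * T - T) * s) = 0

lemma superTrace_add (p x y : Module.End K V) :
    superTrace p (x + y) = superTrace p x + superTrace p y := by
  unfold superTrace; rw [mul_add, map_add]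

lemma superTrace_sub (p x y : Module.End K V) :
    superTrace p (x - y) = superTrace p x - superTrace p y := by
  unfold superTrace; rw [mul_sub, map_sub]

lemma superTrace_smul (p : Module.End K V) (c : K) (x : Module.End K V) :
    superTrace p (c • x) = c * superTrace p x := by
  unfold superTrace; rw [mul_smul_comm, map_smul, smul_eq_mul]

lemma superTrace_sum {J : Type} (s : Finset J) (p : Module.End K V) (x : J → Module.End K V) :
    superTrace p (∑ j ∈ s, x j) = ∑ j ∈ s, superTrace p (x j) := by
  unfold superTrace; rw [mul_sum, map_sum]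

lemma superTrace_self {p : Module.End K V} (hp : p * p = p) :
    superTrace p p = LinearMap.trace K V p := by
  unfold superTrace
  congr 1
  rw [sub_mul, sub_mul, one_mul, hp]; simp

/-- linear extension to the span -/
lemma span_zero {p w : Module.End K V} {R : Set (Module.End K V)}
    (h : ∀ s ∈ R, superTrace p (w * s) = 0) {x : Module.End K V}
    (hx : x ∈ Submodule.span K R) : superTrace p (w * x) = 0 := by
  induction hx using Submodule.span_induction with
  | mem x hx => exact h x hx
  | zero => rw [mul_zero]; unfold superTrace; rw [mul_zero, map_zero]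
  | add x y _ _ hx hy => rw [mul_add, superTrace_add, hx, hy, add_zero]
  | smul c x _ hx => rw [mul_smul_comm, superTrace_smul, hx, mul_zero]

variable [CharZero K] [Module.Finite K V]

/-- elements of the subalgebra `E` of operators which commute with `p` -/
lemma pow_trace {p u : Module.End K V} {E : Subalgebra K (Module.End K V)} (hu : u ∈ E)
    (h : ∀ s ∈ E, superTrace p ((u * u - u) * s) = 0) (r : ℕ) :
    superTrace p (u ^ (r + 1)) = superTrace p u := by
  induction r with
  | zero => rw [zero_add, pow_one]
  | succ r ih =>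
    have h1 := h (u ^ r) (Subalgebra.pow_mem _ hu r)
    have h2 : (u * u - u) * u ^ r = u ^ (r + 1 + 1) - u ^ (r + 1) := by
      rw [sub_mul, mul_assoc, ← pow_succ', ← pow_succ']
    rw [h2, superTrace_sub, sub_eq_zero] at h1
    rw [h1, ih]

/-- The largest possible value of the super trace decides. -/
lemma eq_poly {p u : Module.End K V} (hp : p * p = p) (hcomm : Commute u p)
    {E : Subalgebra K (Module.End K V)} (hu : u ∈ E)
    (h : ∀ s ∈ E, superTrace p ((u * u - u) * s) = 0)
    (htr : superTrace p u = LinearMap.trace K V p) {N : ℕ} (hN1 : 1 ≤ N)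
    (hN : Module.finrank K V ≤ N) : p = 1 - (1 - u ^ N) ^ N := by
  obtain ⟨a, b, c, h1, h2, h3⟩ := main hp hcomm (d := superTrace p u) (pow_trace hu h)
  rw [htr, h2] at h1
  have h4 : ((b + c : ℕ) : K) = 0 := by
    push_cast
    linear_combination h1
  rw [Nat.cast_eq_zero] at h4
  exact h3 (by omega) (by omega) N hN1 hN

lemma le_trace {p u : Module.End K V} (hp : p * p = p) (hcomm : Commute u p)
    {E : Subalgebra K (Module.End K V)} (hu : u ∈ E)
    (h : ∀ s ∈ E, superTrace p ((u * u - u) * s) = 0) {q : ℚ}
    (hq : superTrace p u = (q : K)) : q ≤ (Module.finrank K (LinearMap.range p) : ℚ) := by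
  obtain ⟨a, b, c, h1, h2, -⟩ := main hp hcomm (d := superTrace p u) (pow_trace hu h)
  rw [trace_idem hp] at h2
  have h3 : q = (a : ℚ) - b := by
    have : ((q : ℚ) : K) = (((a : ℚ) - b : ℚ) : K) := by
      rw [← hq, h1]; push_cast; ring
    exact_mod_cast this
  have h4 : Module.finrank K (LinearMap.range p) = a + c := by exact_mod_cast h2
  rw [h3, h4]
  push_cast
  have : (0 : ℚ) ≤ b := Nat.cast_nonneg _
  have : (0 : ℚ) ≤ c := Nat.cast_nonneg _
  linarith

/-- `1 - (1 - u ^ N) ^ N - u` is a multiple of `u² - u`. -/
lemma factor (u : Module.End K V) {N : ℕ} (hN1 : 1 ≤ N) :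
    ∃ g : K[X], 1 - (1 - u ^ N) ^ N - u = (u * u - u) * aeval u g := by
  have hd : (X * (X - 1) : K[X]) ∣ (1 - (1 - X ^ N) ^ N - X) := by
    apply IsCoprime.mul_dvd
    · exact ⟨1, -1, by ring⟩
    · rw [X_dvd_iff, coeff_zero_eq_eval_zero]
      simp [zero_pow (by omega : N ≠ 0)]
    · rw [show (X - 1 : K[X]) = X - C 1 by simp, dvd_iff_isRoot]
      simp [zero_pow (by omega : N ≠ 0)]
  obtain ⟨g, hg⟩ := hd
  refine ⟨g, ?_⟩
  have h1 := congrArg (aeval u) hg
  simp only [map_sub, map_mul, map_one, map_pow, aeval_X] at h1
  rw [h1, mul_sub, mul_one]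

lemma aeval_mem {E : Subalgebra K (Module.End K V)} {u : Module.End K V} (hu : u ∈ E)
    (g : K[X]) : aeval u g ∈ E := by
  rw [Polynomial.aeval_eq_sum_range]
  exact Subalgebra.sum_mem _ fun i _ => Subalgebra.smul_mem _ (Subalgebra.pow_mem _ hu i) _

/-- A numerical idempotent with the largest possible super trace is numerically equal to the even
projector. -/
lemma num_eq {p u : Module.End K V} (hp : p * p = p) (hcomm : Commute u p)
    {E : Subalgebra K (Module.End K V)} (hu : u ∈ E)
    (h : ∀ s ∈ E, superTrace p ((u * u - u) * s) = 0)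
    (htr : superTrace p u = LinearMap.trace K V p) {s : Module.End K V} (hs : s ∈ E) :
    superTrace p (u * s) = superTrace p (p * s) := by
  set N := Module.finrank K V + 1 with hN
  have h1 := eq_poly hp hcomm hu h htr (N := N) (by omega) (by omega)
  obtain ⟨g, hg⟩ := factor u (N := N) (by omega)
  have h2 : p - u = (u * u - u) * aeval u g := by rw [← hg, ← h1]
  have h3 := h (aeval u g * s) (Subalgebra.mul_mem _ (aeval_mem hu g) hs)
  rw [← mul_assoc, ← h2, sub_mul, superTrace_sub, sub_eq_zero] at h3
  exact h3.symm

section Main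

variable {p : Module.End K V} {R : Subring (Module.End K V)}

/-- the `K`-algebra generated by `R` -/
noncomputable def ext (R : Subring (Module.End K V)) : Subalgebra K (Module.End K V) :=
  Algebra.adjoin K (R : Set (Module.End K V))

lemma mem_ext_iff {x : Module.End K V} :
    x ∈ ext R ↔ x ∈ Submodule.span K (R : Set (Module.End K V)) := by
  have h1 : (Submonoid.closure (R : Set (Module.End K V)) : Set (Module.End K V)) = R :=
    congrArg _ (Submonoid.closure_eq R.toSubmonoid)
  have h2 : Subalgebra.toSubmodule (ext R) = Submodule.span K (R : Set (Module.End K V)) := by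
    rw [ext, Algebra.adjoin_eq_span, h1]
  rw [← h2]
  rfl

lemma ext_of {x : Module.End K V} (hx : x ∈ R) : x ∈ ext R :=
  Algebra.subset_adjoin hx

lemma ext_comm (hR : ∀ x ∈ R, Commute x p) {x : Module.End K V} (hx : x ∈ ext R) :
    Commute x p := by
  rw [mem_ext_iff] at hx
  induction hx using Submodule.span_induction with
  | mem x hx => exact hR x hx
  | zero => exact Commute.zero_left p
  | add x y _ _ hx hy => exact hx.add_left hy
  | smul c x _ hx => exact hx.smul_left c

lemma ext_num {T : Module.End K V} (hT : NumIdempotent p R T) :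
    ∀ s ∈ ext R, superTrace p ((T * T - T) * s) = 0 :=
  fun _ hs => span_zero hT (mem_ext_iff.1 hs)

/-- from the numerical statement to the algebraic one -/
theorem mem_of_num (hp : p * p = p) (hR : ∀ x ∈ R, Commute x p) {T : Module.End K V} (hT : T ∈ R)
    (hn : NumIdempotent p R T) (htr : superTrace p T = LinearMap.trace K V p) : p ∈ R := by
  set N := Module.finrank K V + 1 with hN
  rw [eq_poly hp (hR T hT) (ext_of hT) (ext_num hn) htr (N := N) (by omega) (by omega)]
  exact R.sub_mem R.one_mem (R.pow_mem (R.sub_mem R.one_mem (R.pow_mem hT _)) _)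

/-- **Descent of the coefficients.** -/
theorem exists_num [IsAlgClosed K] (hp : p * p = p) (hR : ∀ x ∈ R, Commute x p)
    (hQ : ∀ q : ℚ, ∀ x ∈ R, (q : K) • x ∈ R)
    (hrat : ∀ x ∈ R, ∃ q : ℚ, superTrace p x = (q : K))
    (hspan : p ∈ Submodule.span K (R : Set (Module.End K V))) :
    ∃ T ∈ R, NumIdempotent p R T ∧ superTrace p T = LinearMap.trace K V p := by
  classical
  obtain ⟨b, hbR, hbspan, hbli⟩ := exists_linearIndependent K (R : Set (Module.End K V))
  have hbfin : b.Finite := hbli.setFinite
  have : Fintype b := hbfin.fintype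
  let e : b ≃ Fin (Fintype.card b) := Fintype.equivFin b
  set m := Fintype.card b with hm
  let r : Fin m → Module.End K V := fun i => (e.symm i : Module.End K V)
  have hr : ∀ i, r i ∈ R := fun i => hbR (e.symm i).2
  have hrspan : Submodule.span K (Set.range r) = Submodule.span K (R : Set (Module.End K V)) := by
    rw [← hbspan]
    congr 1
    ext x
    constructor
    · rintro ⟨i, rfl⟩
      exact (e.symm i).2
    · intro hx
      exact ⟨e ⟨x, hx⟩, by simp [r]⟩
  choose! q hq using hrat
  -- the combination with coefficients `x`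
  let u : (Fin m → K) → Module.End K V := fun x => ∑ i, x i • r i
  have hu : ∀ x, u x ∈ ext R := fun x => Subalgebra.sum_mem _ fun i _ =>
    Subalgebra.smul_mem _ (ext_of (hr i)) _
  -- the equations
  let P : Fin m → MvPolynomial (Fin m) ℚ := fun j =>
    ∑ a, ∑ c, MvPolynomial.C (q (r a * r c * r j)) * MvPolynomial.X a * MvPolynomial.X c -
      ∑ a, MvPolynomial.C (q (r a * r j)) * MvPolynomial.X a
  let P₀ : MvPolynomial (Fin m) ℚ := ∑ a, MvPolynomial.C (q (r a)) * MvPolynomial.X a -
    MvPolynomial.C (Module.finrank K (LinearMap.range p) : ℚ)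
  have hP : ∀ x j, MvPolynomial.aeval x (P j) = superTrace p ((u x * u x - u x) * r j) := by
    intro x j
    have h1 : (u x * u x - u x) * r j =
        ∑ a, ∑ c, (x a * x c) • (r a * r c * r j) - ∑ a, x a • (r a * r j) := by
      have h2 : u x * u x = ∑ a, ∑ c, (x a * x c) • (r a * r c) := by
        simp only [u, Finset.sum_mul_sum, smul_mul_smul_comm]
      rw [sub_mul, h2]
      simp only [u, Finset.sum_mul, smul_mul_assoc]
    rw [h1, superTrace_sub, superTrace_sum, superTrace_sum]
    simp only [P, map_sub, map_sum, map_mul, MvPolynomial.aeval_C, MvPolynomial.aeval_X]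
    congr 1
    · refine Finset.sum_congr rfl fun a _ => ?_
      rw [superTrace_sum]
      refine Finset.sum_congr rfl fun c _ => ?_
      rw [superTrace_smul, hq _ (R.mul_mem (R.mul_mem (hr a) (hr c)) (hr j))]
      simp only [eq_ratCast]
      ring
    · refine Finset.sum_congr rfl fun a _ => ?_
      rw [superTrace_smul, hq _ (R.mul_mem (hr a) (hr j))]
      simp only [eq_ratCast]
      ring
  have hP₀ : ∀ x, MvPolynomial.aeval x P₀ = superTrace p (u x) - LinearMap.trace K V p := by
    intro x
    rw [trace_idem hp, superTrace_sum]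
    simp only [P₀, map_sub, map_sum, map_mul, MvPolynomial.aeval_C, MvPolynomial.aeval_X]
    congr 1
    · refine Finset.sum_congr rfl fun a _ => ?_
      rw [superTrace_smul, hq _ (hr a)]
      simp only [eq_ratCast]
      ring
    · simp
  -- `p` gives a solution
  have hz : ∃ z : Fin m → K, u z = p := by
    rw [← hrspan] at hspan
    obtain ⟨z, hz⟩ := (Submodule.mem_span_range_iff_exists_fun K).1 hspan
    exact ⟨z, hz⟩
  obtain ⟨z, hz⟩ := hz
  obtain ⟨J, hJ, hJne, x, y, hx, hy⟩ := exists_rational_average (Set.insert P₀ (Set.range P)) z (by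
    rintro f (rfl | ⟨j, rfl⟩)
    · rw [hP₀, hz, superTrace_self hp, sub_self]
    · rw [hP, hz, hp, sub_self, zero_mul]
      unfold superTrace
      rw [mul_zero, map_zero])
  have hxs : ∀ j, ∀ s ∈ ext R, superTrace p (u (x j) * s) = superTrace p (p * s) := by
    intro j s hs
    apply num_eq hp (ext_comm hR (hu _)) (hu _) _ _ hs
    · intro t ht
      rw [mem_ext_iff, ← hrspan] at ht
      refine span_zero ?_ ht
      rintro _ ⟨i, rfl⟩
      rw [← hP]
      exact hx j _ (Or.inr ⟨i, rfl⟩)
    · have := hx j P₀ (Or.inl rfl)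
      rw [hP₀, sub_eq_zero] at this
      exact this
  set T : Module.End K V := u (fun i => (y i : K)) with hTd
  have hT : T ∈ R := by
    exact R.sum_mem fun i _ => hQ _ _ (hr i)
  have hcard : (Fintype.card J : K) ≠ 0 := by
    exact_mod_cast Fintype.card_ne_zero
  have hTs : ∀ s ∈ ext R, superTrace p (T * s) = superTrace p (p * s) := by
    intro s hs
    have h1 : (Fintype.card J : K) • (T * s) = ∑ j, u (x j) * s := by
      rw [hTd, ← Finset.sum_mul, ← smul_mul_assoc]
      congr 1
      simp only [u, Finset.smul_sum, smul_smul, hy, Finset.sum_smul]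
      exact Finset.sum_comm
    have h2 : (Fintype.card J : K) * superTrace p (T * s) =
        (Fintype.card J : K) * superTrace p (p * s) := by
      rw [← superTrace_smul, h1, superTrace_sum, Finset.sum_congr rfl fun j _ => hxs j s hs,
        Finset.sum_const, Finset.card_univ, nsmul_eq_mul]
    exact mul_left_cancel₀ hcard h2
  have hpe : p ∈ ext R := mem_ext_iff.2 hspan
  refine ⟨T, hT, ?_, ?_⟩
  · intro s hs
    have hs' := ext_of hs
    have e1 : (T * T - T) * s = T * (T * s) - T * s := by rw [sub_mul, mul_assoc]
    rw [e1, superTrace_sub, hTs _ (Subalgebra.mul_mem _ (ext_of hT) hs'), hTs _ hs',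
      ← mul_assoc, ← (hR T hT).eq, mul_assoc, hTs _ (Subalgebra.mul_mem _ hpe hs'), ← mul_assoc,
      hp, sub_self]
  · have := hTs 1 (Subalgebra.one_mem _)
    rw [mul_one, mul_one, superTrace_self hp] at this
    exact this

lemma span_le_span (F : Subfield K) {x : Module.End K V}
    (h : x ∈ Submodule.span F (R : Set (Module.End K V))) :
    x ∈ Submodule.span K (R : Set (Module.End K V)) := by
  induction h using Submodule.span_induction with
  | mem x hx => exact Submodule.subset_span hx
  | zero => exact Submodule.zero_mem _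
  | add x y _ _ hx hy => exact Submodule.add_mem _ hx hy
  | smul c x _ hx => exact Submodule.smul_mem _ (c : K) hx

/-- **The sign conjecture, its numerical form and the field of coefficients.** -/
theorem numerical_tfae [IsAlgClosed K] (hp : p * p = p) (hR : ∀ x ∈ R, Commute x p)
    (hQ : ∀ q : ℚ, ∀ x ∈ R, (q : K) • x ∈ R)
    (hrat : ∀ x ∈ R, ∃ q : ℚ, superTrace p x = (q : K)) (F : Subfield K) :
    List.TFAE [p ∈ R,
      p ∈ Submodule.span F (R : Set (Module.End K V)),
      ∃ T ∈ R, NumIdempotent p R T ∧ superTrace p T = Module.finrank K (LinearMap.range p),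
      IsGreatest {q : ℚ | ∃ T ∈ R, NumIdempotent p R T ∧ superTrace p T = (q : K)}
        (Module.finrank K (LinearMap.range p) : ℚ)] := by
  tfae_have 1 → 2 := fun h => Submodule.subset_span h
  tfae_have 2 → 3 := by
    intro h
    obtain ⟨T, hT, hn, htr⟩ := exists_num hp hR hQ hrat (span_le_span F h)
    exact ⟨T, hT, hn, by rw [htr, trace_idem hp]⟩
  tfae_have 3 → 4 := by
    rintro ⟨T, hT, hn, htr⟩
    refine ⟨⟨T, hT, hn, by rw [htr]; simp⟩, ?_⟩
    rintro q ⟨T', hT', hn', htr'⟩
    exact le_trace hp (hR T' hT') (ext_of hT') (ext_num hn') htr'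
  tfae_have 4 → 1 := by
    rintro ⟨⟨T, hT, hn, htr⟩, -⟩
    refine mem_of_num hp hR hT hn ?_
    rw [htr, trace_idem hp]
    simp
  tfae_finish

end Main

end Pool.Agent.TH6.NC
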