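import Pool.Agent.TH6.NC.Defs

/-!
# The sign conjecture for Schur functors and tensor products
-/

open Matrix Finset

namespace Pool.Agent.TH6.NC

set_option linter.unusedSectionVars false

variable {K : Type} [Field K] {I : Type} [DecidableEq I] {sg : I → ℤˣ} {n : ℕ}

lemma koszul_symm (sg : I → ℤˣ) (σ : Equiv.Perm (Fin n)) (w : Fin n → I) :
    koszul sg σ (w ∘ σ) = koszul sg σ.symm w := by
  unfold koszul
  refine Finset.prod_nbij' (fun q => (σ q.2, σ q.1)) (fun q => (σ.symm q.2, σ.symm q.1))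
    ?_ ?_ ?_ ?_ ?_
  · intro q hq
    simp only [mem_filter, mem_univ, true_and, Equiv.symm_apply_apply] at hq ⊢
    exact ⟨hq.2, hq.1⟩
  · intro q hq
    simp only [mem_filter, mem_univ, true_and, Equiv.apply_symm_apply] at hq ⊢
    exact ⟨hq.2, hq.1⟩
  · intro q _
    simp
  · intro q _
    simp
  · intro q _
    simp only [Function.comp]
    congr 1
    exact propext and_comm

lemma permMat_transpose (σ : Equiv.Perm (Fin n)) :
    (permMat K sg σ)ᵀ = permMat K sg σ.symm := by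
  ext u w
  simp only [permMat, Matrix.transpose_apply, Matrix.of_apply, Equiv.symm_symm]
  by_cases h : u = w ∘ σ
  · have h' : w = u ∘ σ.symm := by
      rw [h]; funext k; simp
    rw [if_pos h', if_pos h, h, koszul_symm]
  · have h' : ¬ w = u ∘ σ.symm := by
      intro h1
      apply h
      rw [h1]; funext k; simp
    rw [if_neg h', if_neg h]

lemma groupMat_apply (c : Equiv.Perm (Fin n) → ℚ) (u w : Fin n → I) [CharZero K] :
    groupMat K sg c u w = ((groupMat ℚ sg c u w : ℚ) : K) := by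
  simp only [groupMat, Matrix.sum_apply, Matrix.smul_apply, permMat, Matrix.of_apply, smul_eq_mul,
    Rat.cast_sum, Rat.cast_mul, Rat.cast_id]
  refine Finset.sum_congr rfl fun σ _ => ?_
  split_ifs <;> simp

lemma groupMat_supp {c : Equiv.Perm (Fin n) → ℚ} {u w : Fin n → I}
    (h : groupMat ℚ sg c u w ≠ 0) : ∃ σ : Equiv.Perm (Fin n), u = w ∘ σ := by
  by_contra hc
  push Not at hc
  apply h
  simp only [groupMat, Matrix.sum_apply, Matrix.smul_apply, permMat, Matrix.of_apply]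
  refine Finset.sum_eq_zero fun σ _ => ?_
  rw [if_neg (hc σ.symm), smul_zero]

lemma koszul_relabel (θ : Equiv.Perm I) (hθ : ∀ i, sg (θ i) = sg i) (σ : Equiv.Perm (Fin n))
    (w : Fin n → I) : koszul sg σ (θ ∘ w) = koszul sg σ w := by
  simp only [koszul, Function.comp, hθ]

lemma groupMat_relabel (θ : Equiv.Perm I) (hθ : ∀ i, sg (θ i) = sg i)
    (c : Equiv.Perm (Fin n) → ℚ) (u w : Fin n → I) :
    groupMat ℚ sg c (θ ∘ u) (θ ∘ w) = groupMat ℚ sg c u w := by
  simp only [groupMat, Matrix.sum_apply, Matrix.smul_apply, permMat, Matrix.of_apply]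
  refine Finset.sum_congr rfl fun σ _ => ?_
  rw [koszul_relabel θ hθ]
  have : (θ ∘ u = (θ ∘ w) ∘ σ.symm) ↔ (u = w ∘ σ.symm) := by
    constructor
    · intro h
      funext k
      exact θ.injective (congrFun h k)
    · rintro rfl
      rfl
  simp only [this]

/-- the matrix `Mᵀ M` of rational numbers -/
def gram [Fintype I] (sg : I → ℤˣ) (c : Equiv.Perm (Fin n) → ℚ) :
    Matrix (Fin n → I) (Fin n → I) ℚ :=
  (groupMat ℚ sg c)ᵀ * groupMat ℚ sg c

variable [Fintype I]

lemma gram_supp {c : Equiv.Perm (Fin n) → ℚ} {u w : Fin n → I} (h : gram sg c u w ≠ 0) :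
    ∃ σ : Equiv.Perm (Fin n), u = w ∘ σ := by
  rw [gram, Matrix.mul_apply] at h
  obtain ⟨x, -, hx⟩ := Finset.exists_ne_zero_of_sum_ne_zero h
  rw [Matrix.transpose_apply] at hx
  obtain ⟨σ, hσ⟩ := groupMat_supp (left_ne_zero_of_mul hx)
  obtain ⟨τ, hτ⟩ := groupMat_supp (right_ne_zero_of_mul hx)
  refine ⟨σ.symm.trans τ, ?_⟩
  have : u = x ∘ σ.symm := by
    rw [hσ]; funext k; simp
  rw [this, hτ]
  funext k
  simp

lemma gram_nonneg (c : Equiv.Perm (Fin n) → ℚ) (u : Fin n → I) : 0 ≤ gram sg c u u := by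
  rw [gram, Matrix.mul_apply]
  refine Finset.sum_nonneg fun x _ => ?_
  rw [Matrix.transpose_apply]
  exact mul_self_nonneg _

lemma gram_pos {c : Equiv.Perm (Fin n) → ℚ} (h : groupMat ℚ sg c ≠ 0) :
    ∃ u, 0 < gram sg c u u := by
  by_contra hc
  push Not at hc
  apply h
  ext x u
  have h1 := le_antisymm (hc u) (gram_nonneg c u)
  rw [gram, Matrix.mul_apply, Finset.sum_eq_zero_iff_of_nonneg] at h1
  · have h2 := h1 x (mem_univ x)
    rw [Matrix.transpose_apply, mul_self_eq_zero] at h2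
    simpa using h2
  · intro y _
    rw [Matrix.transpose_apply]
    exact mul_self_nonneg _

lemma gram_relabel (θ : Equiv.Perm I) (hθ : ∀ i, sg (θ i) = sg i)
    (c : Equiv.Perm (Fin n) → ℚ) (u w : Fin n → I) :
    gram sg c (θ ∘ u) (θ ∘ w) = gram sg c u w := by
  rw [gram, Matrix.mul_apply, Matrix.mul_apply]
  have hb : Function.Bijective (fun x : Fin n → I => θ ∘ x) := by
    constructor
    · intro a b hab
      funext k
      exact θ.injective (congrFun hab k)
    · intro b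
      exact ⟨θ.symm ∘ b, by funext k; simp⟩
  rw [← (Equiv.ofBijective _ hb).sum_comp]
  refine Finset.sum_congr rfl fun x _ => ?_
  simp only [Matrix.transpose_apply, Equiv.ofBijective_apply]
  rw [groupMat_relabel θ hθ, groupMat_relabel θ hθ]

/-- two words `a w`, `b w` which are rearrangements of each other -/
lemma cons_inj {a b : I} {w : Fin n → I} {σ : Equiv.Perm (Fin (n + 1))}
    (h : (Fin.cons a w : Fin (n + 1) → I) = (Fin.cons b w : Fin (n + 1) → I) ∘ σ) : a = b := by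
  have h1 : ∀ g : I → ℕ, g a = g b := by
    intro g
    have h2 : ∑ k, g ((Fin.cons a w : Fin (n + 1) → I) k) =
        ∑ k, g ((Fin.cons b w : Fin (n + 1) → I) k) := by
      rw [h, ← Equiv.sum_comp σ (fun k => g ((Fin.cons b w : Fin (n + 1) → I) k))]
      rfl
    rw [Fin.sum_univ_succ, Fin.sum_univ_succ] at h2
    simp only [Fin.cons_zero, Fin.cons_succ] at h2
    omega
  by_contra hab
  have := h1 (fun i => if i = a then 1 else 0)
  simp [Ne.symm hab] at this

/-- the numbers on the diagonal of the partial super trace -/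
def dnum (sg : I → ℤˣ) (c : Equiv.Perm (Fin (n + 1)) → ℚ) (a : I) : ℚ :=
  ∑ w : Fin n → I, gram sg c (Fin.cons a w : Fin (n + 1) → I) (Fin.cons a w : Fin (n + 1) → I)

lemma dnum_nonneg (c : Equiv.Perm (Fin (n + 1)) → ℚ) (a : I) : 0 ≤ dnum sg c a :=
  Finset.sum_nonneg fun _ _ => gram_nonneg c _

lemma dnum_pos {c : Equiv.Perm (Fin (n + 1)) → ℚ} (h : groupMat ℚ sg c ≠ 0) :
    ∃ a, 0 < dnum sg c a := by
  obtain ⟨u, hu⟩ := gram_pos h
  refine ⟨u 0, ?_⟩
  have h1 : (Fin.cons (u 0) (Fin.tail u) : Fin (n + 1) → I) = u := Fin.cons_self_tail u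
  refine Finset.sum_pos' (fun w _ => gram_nonneg c _) ⟨Fin.tail u, mem_univ _, ?_⟩
  rw [h1]
  exact hu

lemma dnum_eq (c : Equiv.Perm (Fin (n + 1)) → ℚ) {a b : I} (h : sg a = sg b) :
    dnum sg c a = dnum sg c b := by
  set θ := Equiv.swap a b with hθd
  have hθ : ∀ i, sg (θ i) = sg i := by
    intro i
    rw [hθd, Equiv.swap_apply_def]
    split_ifs with h1 h2
    · rw [h1, h]
    · rw [h2, h]
    · rfl
  have hb : Function.Bijective (fun x : Fin n → I => θ ∘ x) := by
    constructor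
    · intro x y hxy
      funext k
      exact θ.injective (congrFun hxy k)
    · intro y
      exact ⟨θ.symm ∘ y, by funext k; simp⟩
  unfold dnum
  rw [← (Equiv.ofBijective _ hb).sum_comp (fun w => gram sg c
    (Fin.cons b w : Fin (n + 1) → I) (Fin.cons b w : Fin (n + 1) → I))]
  refine Finset.sum_congr rfl fun w _ => ?_
  rw [← gram_relabel θ hθ]
  have h2 : θ ∘ (Fin.cons a w : Fin (n + 1) → I) = Fin.cons b (θ ∘ w) := by
    funext k
    refine Fin.cases ?_ (fun k => ?_) k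
    · simp [hθd]
    · simp
  rw [h2]
  rfl

lemma exists_two (c : Equiv.Perm (Fin (n + 1)) → ℚ) (h : groupMat ℚ sg c ≠ 0) :
    ∃ c₁ c₂ : ℚ, 0 < c₁ + c₂ ∧ ∀ a, (sg a = 1 → dnum sg c a = c₁) ∧
      (sg a = -1 → dnum sg c a = c₂) := by
  classical
  obtain ⟨a₀, ha₀⟩ := dnum_pos h
  have key : ∀ s : ℤˣ, ∃ d : ℚ, 0 ≤ d ∧ ∀ a, sg a = s → dnum sg c a = d := by
    intro s
    by_cases hs : ∃ a, sg a = s
    · obtain ⟨b, hb⟩ := hs
      exact ⟨dnum sg c b, dnum_nonneg c b, fun a ha => dnum_eq c (ha.trans hb.symm)⟩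
    · exact ⟨0, le_rfl, fun a ha => absurd ⟨a, ha⟩ hs⟩
  obtain ⟨c₁, h1, h1'⟩ := key 1
  obtain ⟨c₂, h2, h2'⟩ := key (-1)
  refine ⟨c₁, c₂, ?_, fun a => ⟨h1' a, h2' a⟩⟩
  rcases Int.units_eq_one_or (sg a₀) with h3 | h3
  · have := h1' a₀ h3
    linarith
  · have := h2' a₀ h3
    linarith

end Pool.Agent.TH6.NC
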