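import Pool.Agent.TH6.NC.Schur

/-!
# The sign conjecture for Schur functors and tensor products: the main theorem
-/

open Matrix Finset

namespace Pool.Agent.TH6.NC

section Kron

variable {K : Type} [Field K] {I J : Type} [Fintype I] [Fintype J]

lemma kron_mul (f f' : Matrix I I K) (g g' : Matrix J J K) :
    kron f g * kron f' g' = kron (f * f') (g * g') := by
  ext u w
  simp only [kron, Matrix.mul_apply, Matrix.of_apply]
  rw [Fintype.sum_prod_type, Finset.sum_mul_sum]
  refine Finset.sum_congr rfl fun i _ => Finset.sum_congr rfl fun j _ => ?_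
  ring

end Kron

lemma units_sq (K : Type) [Field K] (s : ℤˣ) : ((s : ℤ) : K) * ((s : ℤ) : K) = 1 := by
  rcases Int.units_eq_one_or s with h | h <;> simp [h]

namespace SuperTheory

variable {K : Type} [Field K] [CharZero K] (T : SuperTheory K)

lemma parity_prod (A B : T.Obj) : T.parity (T.prod A B) =
    (kron (T.parity A) (T.parity B)).submatrix (T.e A B) (T.e A B) := by
  ext x y
  simp only [parity, kron, Matrix.submatrix_apply, Matrix.of_apply, Matrix.diagonal_apply]
  by_cases h : x = y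
  · subst h
    simp [T.sg_e]
  · have h' : ¬ ((T.e A B x).1 = (T.e A B y).1 ∧ (T.e A B x).2 = (T.e A B y).2) := by
      rintro ⟨h1, h2⟩
      exact h ((T.e A B).injective (Prod.ext h1 h2))
    rw [if_neg h]
    by_cases h1 : (T.e A B x).1 = (T.e A B y).1
    · have h2 : ¬ (T.e A B x).2 = (T.e A B y).2 := fun h2 => h' ⟨h1, h2⟩
      rw [if_neg h2, mul_zero]
    · rw [if_neg h1, zero_mul]

lemma parity_pow (A : T.Obj) (n : ℕ) : T.parity (T.pow A n) =
    (kronPow n (T.parity A)).submatrix (T.p A n) (T.p A n) := by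
  ext x y
  simp only [parity, kronPow, Matrix.submatrix_apply, Matrix.of_apply, Matrix.diagonal_apply]
  by_cases h : x = y
  · subst h
    simp [T.sg_p]
  · rw [if_neg h]
    have h' : ∃ k, T.p A n x k ≠ T.p A n y k := by
      by_contra hc
      push Not at hc
      exact h ((T.p A n).injective (funext hc))
    obtain ⟨k, hk⟩ := h'
    rw [eq_comm, Finset.prod_eq_zero (mem_univ k)]
    rw [if_neg hk]

lemma sign_prod {A B : T.Obj} (hA : T.Sign A) (hB : T.Sign B) : T.Sign (T.prod A B) := by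
  unfold Sign
  rw [parity_prod]
  exact T.kron_mem A B _ hA _ hB

lemma sign_pow {A : T.Obj} (hA : T.Sign A) (n : ℕ) : T.Sign (T.pow A n) := by
  unfold Sign
  rw [parity_pow]
  exact T.kronPow_mem A n _ hA

/-- The matrix of an element of the group algebra on the realisation of `A ^ n`. -/
def grp (A : T.Obj) {n : ℕ} (c : Equiv.Perm (Fin n) → ℚ) :
    Matrix (T.ι (T.pow A n)) (T.ι (T.pow A n)) K :=
  (groupMat K (T.sg A) c).submatrix (T.p A n) (T.p A n)

lemma smul_cast_mem {A : T.Obj} (q : ℚ) {f : Matrix (T.ι A) (T.ι A) K} (hf : f ∈ T.Alg A) :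
    (q : K) • f ∈ T.Alg A := by
  have h1 : (q : K) • f = q • f := by
    ext i j
    rw [Matrix.smul_apply, Matrix.smul_apply, Rat.smul_def, smul_eq_mul]
  rw [h1]
  exact Subalgebra.smul_mem _ hf q

lemma grp_mem (A : T.Obj) {n : ℕ} (c : Equiv.Perm (Fin n) → ℚ) :
    T.grp A c ∈ T.Alg (T.pow A n) := by
  have : T.grp A c = ∑ σ, (c σ : K) • (permMat K (T.sg A) σ).submatrix (T.p A n) (T.p A n) := by
    ext x y
    simp [grp, groupMat, Matrix.sum_apply]
  rw [this]
  exact Subalgebra.sum_mem _ fun σ _ => T.smul_cast_mem _ (T.perm_mem A n σ)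

lemma grp_transpose_mem (A : T.Obj) {n : ℕ} (c : Equiv.Perm (Fin n) → ℚ) :
    (T.grp A c)ᵀ ∈ T.Alg (T.pow A n) := by
  have : (T.grp A c)ᵀ =
      ∑ σ, (c σ : K) • (permMat K (T.sg A) σ.symm).submatrix (T.p A n) (T.p A n) := by
    ext x y
    simp only [grp, groupMat, Matrix.transpose_apply, Matrix.submatrix_apply, Matrix.sum_apply,
      Matrix.smul_apply, smul_eq_mul]
    refine Finset.sum_congr rfl fun σ _ => ?_
    rw [← permMat_transpose, Matrix.transpose_apply]
  rw [this]
  exact Subalgebra.sum_mem _ fun σ _ => T.smul_cast_mem _ (T.perm_mem A n σ.symm)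

lemma schur_eq (A B : T.Obj) {n : ℕ} (c : Equiv.Perm (Fin n) → ℚ) :
    T.schur A B c = (kron (T.grp A c) 1).submatrix (T.e (T.pow A n) B) (T.e (T.pow A n) B) := rfl

lemma schur_mem (A B : T.Obj) {n : ℕ} (c : Equiv.Perm (Fin n) → ℚ) :
    T.schur A B c ∈ T.Alg (T.prod (T.pow A n) B) := by
  rw [schur_eq]
  exact T.kron_mem _ _ _ (T.grp_mem A c) _ (Subalgebra.one_mem _)

/-- `Mᵀ M` on the realisation of `A ^ n` -/
def gramT (A : T.Obj) {n : ℕ} (c : Equiv.Perm (Fin n) → ℚ) :
    Matrix (T.ι (T.pow A n)) (T.ι (T.pow A n)) K := (T.grp A c)ᵀ * T.grp A c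

lemma gramT_apply (A : T.Obj) {n : ℕ} (c : Equiv.Perm (Fin n) → ℚ) (x y : T.ι (T.pow A n)) :
    T.gramT A c x y = ((gram (T.sg A) c (T.p A n x) (T.p A n y) : ℚ) : K) := by
  rw [gramT, gram, Matrix.mul_apply, Matrix.mul_apply, Rat.cast_sum,
    ← (T.p A n).sum_comp]
  refine Finset.sum_congr rfl fun z _ => ?_
  simp only [grp, Matrix.transpose_apply, Matrix.submatrix_apply]
  rw [groupMat_apply (K := K), groupMat_apply (K := K), Rat.cast_mul]

/-- the key product -/
lemma key_mem {A B : T.Obj} {n : ℕ} {c : Equiv.Perm (Fin n) → ℚ}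
    (h : T.SignSummand (T.prod (T.pow A n) B) (T.schur A B c)) :
    (kron (T.gramT A c * T.parity (T.pow A n)) (T.parity B)).submatrix
      (T.e (T.pow A n) B) (T.e (T.pow A n) B) ∈ T.Alg (T.prod (T.pow A n) B) := by
  have h1 := Subalgebra.mul_mem _
    (T.kron_mem (T.pow A n) B _ (T.grp_transpose_mem A c) _ (Subalgebra.one_mem _)) h
  rw [schur_eq, parity_prod, Matrix.submatrix_mul_equiv, Matrix.submatrix_mul_equiv, kron_mul,
    kron_mul, one_mul, one_mul, ← mul_assoc] at h1
  exact h1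

lemma right_mem {A B : T.Obj} {f : Matrix (T.ι A) (T.ι A) K} {g : Matrix (T.ι B) (T.ι B) K}
    (h : (kron f g).submatrix (T.e A B) (T.e A B) ∈ T.Alg (T.prod A B)) :
    (∑ b, ((T.sg B b : ℤ) : K) * g b b) • f ∈ T.Alg A := by
  have h1 := T.traceRight_mem A B _ h
  convert h1 using 1
  ext i j
  simp only [Matrix.smul_apply, Matrix.of_apply, Matrix.submatrix_apply, kron,
    Equiv.apply_symm_apply, smul_eq_mul, Finset.sum_mul]
  exact Finset.sum_congr rfl fun b _ => by ring

lemma left_mem {A B : T.Obj} {f : Matrix (T.ι A) (T.ι A) K} {g : Matrix (T.ι B) (T.ι B) K}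
    (h : (kron f g).submatrix (T.e A B) (T.e A B) ∈ T.Alg (T.prod A B)) :
    (∑ a, ((T.sg A a : ℤ) : K) * f a a) • g ∈ T.Alg B := by
  have h1 := T.traceLeft_mem A B _ h
  convert h1 using 1
  ext i j
  simp only [Matrix.smul_apply, Matrix.of_apply, Matrix.submatrix_apply, kron,
    Equiv.apply_symm_apply, smul_eq_mul, Finset.sum_mul]
  exact Finset.sum_congr rfl fun b _ => by ring

lemma of_smul_mem {A : T.Obj} {f : Matrix (T.ι A) (T.ι A) K} {q : ℚ} (hq : q ≠ 0)
    (h : (q : K) • f ∈ T.Alg A) : f ∈ T.Alg A := by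
  have h1 := T.smul_cast_mem q⁻¹ h
  rwa [smul_smul, ← Rat.cast_mul, inv_mul_cancel₀ hq, Rat.cast_one, one_smul] at h1

lemma grp_ne_zero {A B : T.Obj} {n : ℕ} {c : Equiv.Perm (Fin n) → ℚ} (h : T.schur A B c ≠ 0) :
    groupMat ℚ (T.sg A) c ≠ 0 := by
  intro h0
  apply h
  ext x y
  simp only [schur, Matrix.submatrix_apply, kron, Matrix.of_apply]
  rw [groupMat_apply (K := K), h0, Matrix.zero_apply, Rat.cast_zero, zero_mul,
    Matrix.zero_apply]

/-- the last step: from `Mᵀ M · parity` on `A ^ (n + 1)` to the parity of `A` -/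
lemma sign_of_pow {A : T.Obj} {n : ℕ} {c : Equiv.Perm (Fin (n + 1)) → ℚ}
    (hc : groupMat ℚ (T.sg A) c ≠ 0)
    (h : T.gramT A c * T.parity (T.pow A (n + 1)) ∈ T.Alg (T.pow A (n + 1))) : T.Sign A := by
  obtain ⟨c₁, c₂, hpos, hcc⟩ := exists_two (sg := T.sg A) c hc
  have h1 := T.traceTail_mem A n _ h
  set X : Matrix (T.ι A) (T.ι A) K := Matrix.of fun i j => ∑ w : Fin n → T.ι A,
    (((∏ k, T.sg A (w k) : ℤˣ) : ℤ) : K) *
      (T.gramT A c * T.parity (T.pow A (n + 1))) ((T.p A (n + 1)).symm (Fin.cons i w))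
        ((T.p A (n + 1)).symm (Fin.cons j w)) with hX
  have hXe : X = Matrix.diagonal fun a => ((T.sg A a : ℤ) : K) * (dnum (T.sg A) c a : ℚ) := by
    ext a b
    simp only [hX, Matrix.of_apply, parity, Matrix.mul_diagonal, gramT_apply,
      Equiv.apply_symm_apply, Matrix.diagonal_apply]
    by_cases hab : a = b
    · subst hab
      rw [if_pos rfl, dnum, Rat.cast_sum, Finset.mul_sum]
      refine Finset.sum_congr rfl fun w _ => ?_
      rw [T.sg_p, Equiv.apply_symm_apply, Fin.prod_univ_succ]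
      simp only [Fin.cons_zero, Fin.cons_succ, Units.val_mul, Int.cast_mul]
      have := units_sq K (∏ k, T.sg A (w k))
      linear_combination ((gram (T.sg A) c (Fin.cons a w : Fin (n + 1) → T.ι A)
        (Fin.cons a w : Fin (n + 1) → T.ι A) : ℚ) : K) * ((T.sg A a : ℤ) : K) * this
    · rw [if_neg hab]
      refine Finset.sum_eq_zero fun w _ => ?_
      have : gram (T.sg A) c (Fin.cons a w : Fin (n + 1) → T.ι A)
          (Fin.cons b w : Fin (n + 1) → T.ι A) = 0 := by
        by_contra hne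
        obtain ⟨σ, hσ⟩ := gram_supp hne
        exact hab (cons_inj hσ)
      rw [this, Rat.cast_zero, zero_mul, mul_zero]
  have h2 : ((c₁ + c₂ : ℚ) : K) • T.parity A =
      ((2 : ℚ) : K) • X - ((c₁ - c₂ : ℚ) : K) • (1 : Matrix (T.ι A) (T.ι A) K) := by
    rw [hXe]
    ext a b
    simp only [parity, Matrix.smul_apply, Matrix.sub_apply, Matrix.diagonal_apply,
      Matrix.one_apply, smul_eq_mul]
    by_cases hab : a = b
    · rw [if_pos hab, if_pos hab, if_pos hab]
      rcases Int.units_eq_one_or (T.sg A a) with h3 | h3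
      · rw [(hcc a).1 h3, h3]
        push_cast
        ring
      · rw [(hcc a).2 h3, h3]
        push_cast
        ring
    · rw [if_neg hab, if_neg hab, if_neg hab]
      ring
  apply T.of_smul_mem hpos.ne'
  rw [h2]
  exact Subalgebra.sub_mem _ (T.smul_cast_mem 2 h1)
    (T.smul_cast_mem _ (Subalgebra.one_mem _))

/-- **The sign conjecture for `S_λ(A) ⊗ B` is equivalent to the one for `A` and for `B`.** -/
theorem sign_iff (A B : T.Obj) {n : ℕ} (c : Equiv.Perm (Fin (n + 1)) → ℚ)
    (hc : T.schur A B c ≠ 0) :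
    T.SignSummand (T.prod (T.pow A (n + 1)) B) (T.schur A B c) ↔ T.Sign A ∧ T.Sign B := by
  have hc' := T.grp_ne_zero hc
  have hB : Nonempty (T.ι B) := by
    by_contra hB
    rw [not_nonempty_iff] at hB
    apply hc
    ext x y
    exact (hB.false (T.e (T.pow A (n + 1)) B x).2).elim
  constructor
  · intro h
    have h1 := T.key_mem h
    constructor
    · apply T.sign_of_pow hc'
      have h2 := T.right_mem h1
      have h3 : (∑ b, ((T.sg B b : ℤ) : K) * T.parity B b b) = ((Fintype.card (T.ι B) : ℚ) : K) := by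
        simp only [parity, Matrix.diagonal_apply_eq, units_sq, Finset.sum_const, Finset.card_univ,
          nsmul_eq_mul, mul_one, Rat.cast_natCast]
      rw [h3] at h2
      exact T.of_smul_mem (by exact_mod_cast Fintype.card_ne_zero) h2
    · have h2 := T.left_mem h1
      have h3 : (∑ a, ((T.sg (T.pow A (n + 1)) a : ℤ) : K) *
          (T.gramT A c * T.parity (T.pow A (n + 1))) a a) =
          ((∑ u, gram (T.sg A) c u u : ℚ) : K) := by
        rw [Rat.cast_sum, ← (T.p A (n + 1)).sum_comp]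
        refine Finset.sum_congr rfl fun a _ => ?_
        rw [parity, Matrix.mul_diagonal, gramT_apply]
        have := units_sq K (T.sg (T.pow A (n + 1)) a)
        linear_combination ((gram (T.sg A) c (T.p A (n + 1) a) (T.p A (n + 1) a) : ℚ) : K) * this
      rw [h3] at h2
      refine T.of_smul_mem (ne_of_gt ?_) h2
      obtain ⟨u, hu⟩ := gram_pos hc'
      exact Finset.sum_pos' (fun w _ => gram_nonneg c _) ⟨u, mem_univ _, hu⟩
  · rintro ⟨hA, hB'⟩
    exact Subalgebra.mul_mem _ (T.schur_mem A B c) (T.sign_prod (T.sign_pow hA (n + 1)) hB')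

end SuperTheory

end Pool.Agent.TH6.NC
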